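import Mathlib

/-!
# Numbers without small prime factors in almost all windows
-/

set_option autoImplicit false

open Finset

namespace Pool.Agent.V7H30.EE

/-- The primes in `(w, y]`. -/
def Sy (w y : ℕ) : Finset ℕ := (Ioc w y).filter Nat.Prime

theorem Sy_self (w : ℕ) : Sy w w = ∅ := by simp [Sy]

theorem Sy_succ_prime (w y : ℕ) (h : w ≤ y) (hp : (y + 1).Prime) :
    Sy w (y + 1) = insert (y + 1) (Sy w y) ∧ y + 1 ∉ Sy w y := by
  refine ⟨?_, ?_⟩
  · ext p
    simp only [Sy, mem_filter, mem_Ioc, mem_insert]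
    constructor
    · rintro ⟨⟨h1, h2⟩, h3⟩
      rcases Nat.lt_or_ge y p with h4 | h4
      · left; omega
      · right; exact ⟨⟨h1, h4⟩, h3⟩
    · rintro (h1 | ⟨⟨h1, h2⟩, h3⟩)
      · subst h1; exact ⟨⟨by omega, le_rfl⟩, hp⟩
      · exact ⟨⟨h1, by omega⟩, h3⟩
  · simp [Sy]

theorem Sy_succ_not (w y : ℕ) (hp : ¬ (y + 1).Prime) : Sy w (y + 1) = Sy w y := by
  ext p
  simp only [Sy, mem_filter, mem_Ioc]
  constructor
  · rintro ⟨⟨h1, h2⟩, h3⟩
    refine ⟨⟨h1, ?_⟩, h3⟩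
    rcases Nat.lt_or_ge y p with h4 | h4
    · have : p = y + 1 := by omega
      rw [this] at h3; exact absurd h3 hp
    · exact h4
  · rintro ⟨⟨h1, h2⟩, h3⟩
    exact ⟨⟨h1, by omega⟩, h3⟩

/-- The modulus. -/
def Q (w y : ℕ) : ℕ := ∏ p ∈ Sy w y, p

/-- The number of classes which survive. -/
def ph (w y : ℕ) : ℕ := ∏ p ∈ Sy w y, (p - 1)

/-- `q₀ t + 1` has no prime factor in `(w, y]`. -/
def Gd (q₀ w y t : ℕ) : Prop := ∀ p ∈ Sy w y, ¬ p ∣ q₀ * t + 1

instance (q₀ w y t : ℕ) : Decidable (Gd q₀ w y t) := by unfold Gd; infer_instance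

theorem Q_pos (w y : ℕ) : 0 < Q w y := by
  refine Finset.prod_pos ?_
  intro p hp
  exact (mem_filter.1 hp).2.pos

theorem ph_pos (w y : ℕ) : 0 < ph w y := by
  refine Finset.prod_pos ?_
  intro p hp
  have := (mem_filter.1 hp).2.two_le
  omega

theorem Gd_mod (q₀ w y t s : ℕ) (h : t ≡ s [MOD Q w y]) (hg : Gd q₀ w y t) : Gd q₀ w y s := by
  intro p hp hd
  refine hg p hp ?_
  have h1 : p ∣ Q w y := Finset.dvd_prod_of_mem _ hp
  have h2 : t ≡ s [MOD p] := h.of_dvd h1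
  have h3 : q₀ * t + 1 ≡ q₀ * s + 1 [MOD p] := (h2.mul_left q₀).add_right 1
  exact (Nat.modEq_zero_iff_dvd.1 (h3.trans (Nat.modEq_zero_iff_dvd.2 hd)))

/-- Counting in a product of coprime moduli. -/
theorem crt_count (q p : ℕ) (hq : q ≠ 0) (hp : p ≠ 0) (hc : Nat.Coprime q p) (P R : ℕ → Prop)
    [DecidablePred P] [DecidablePred R]
    (hP : ∀ t s, t ≡ s [MOD q] → P t → P s) (hR : ∀ t s, t ≡ s [MOD p] → R t → R s) :
    ((range (q * p)).filter (fun t => P t ∧ R t)).card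
      = ((range q).filter P).card * ((range p).filter R).card := by
  rw [← card_product]
  refine card_nbij' (fun t => (t % q, t % p)) (fun x => (Nat.chineseRemainder hc x.1 x.2 : ℕ))
    ?_ ?_ ?_ ?_
  · intro t ht
    have ht := mem_filter.1 (mem_coe.1 ht)
    refine mem_coe.2 (mem_product.2 ⟨mem_filter.2 ⟨mem_range.2 (Nat.mod_lt _ (Nat.pos_of_ne_zero hq)), ?_⟩,
      mem_filter.2 ⟨mem_range.2 (Nat.mod_lt _ (Nat.pos_of_ne_zero hp)), ?_⟩⟩)
    · exact hP t _ (Nat.mod_modEq t q).symm ht.2.1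
    · exact hR t _ (Nat.mod_modEq t p).symm ht.2.2
  · intro x hx
    have hx := mem_product.1 (mem_coe.1 hx)
    have h1 := mem_filter.1 hx.1
    have h2 := mem_filter.1 hx.2
    have h3 := (Nat.chineseRemainder hc x.1 x.2).2
    refine mem_coe.2 (mem_filter.2 ⟨mem_range.2 (Nat.chineseRemainder_lt_mul hc _ _ hq hp), ?_, ?_⟩)
    · exact hP _ _ h3.1.symm h1.2
    · exact hR _ _ h3.2.symm h2.2
  · intro t ht
    have ht := mem_filter.1 (mem_coe.1 ht)
    have h1 := Nat.chineseRemainder_modEq_unique hc (Nat.mod_modEq t q).symm (Nat.mod_modEq t p).symm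
    have h2 := Nat.ModEq.eq_of_lt_of_lt h1 (mem_range.1 ht.1) (Nat.chineseRemainder_lt_mul hc _ _ hq hp)
    exact h2.symm
  · rintro ⟨a, b⟩ hx
    have hx := mem_product.1 (mem_coe.1 hx)
    have h1 := mem_range.1 (mem_filter.1 hx.1).1
    have h2 := mem_range.1 (mem_filter.1 hx.2).1
    have h3 := (Nat.chineseRemainder hc a b).2
    simp only at h1 h2 ⊢
    have h4 : (Nat.chineseRemainder hc a b : ℕ) % q = a := by
      have := h3.1
      rw [Nat.ModEq, Nat.mod_eq_of_lt h1] at this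
      exact this
    have h5 : (Nat.chineseRemainder hc a b : ℕ) % p = b := by
      have := h3.2
      rw [Nat.ModEq, Nat.mod_eq_of_lt h2] at this
      exact this
    rw [h4, h5]

/-- The class which is removed. -/
theorem one_class (q₀ p j : ℕ) (hp : p.Prime) (hq : ¬ p ∣ q₀) (t : ℕ) (ht : t < p) :
    p ∣ q₀ * (t + j) + 1 ↔ t = (-(q₀ : ZMod p)⁻¹ - (j : ZMod p)).val := by
  have := Fact.mk hp
  have hq' : (q₀ : ZMod p) ≠ 0 := by
    intro h
    exact hq ((ZMod.natCast_eq_zero_iff _ _).1 h)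
  rw [← ZMod.natCast_eq_zero_iff]
  push_cast
  constructor
  · intro h
    have h1 : (t : ZMod p) = -(q₀ : ZMod p)⁻¹ - (j : ZMod p) := by
      have h2 : (q₀ : ZMod p) * ((t : ZMod p) + j + (q₀ : ZMod p)⁻¹) = 0 := by
        rw [mul_add, mul_inv_cancel₀ hq']
        exact h
      have h3 := (mul_eq_zero.1 h2).resolve_left hq'
      linear_combination h3
    rw [← h1, ZMod.val_natCast_of_lt ht]
  · intro h
    have h1 : (t : ZMod p) = -(q₀ : ZMod p)⁻¹ - (j : ZMod p) := by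
      rw [h, ZMod.natCast_zmod_val]
    rw [h1]
    field_simp
    ring

/-- The local counts. -/
theorem local_count (q₀ p i j : ℕ) (hp : p.Prime) (hq : ¬ p ∣ q₀) :
    ((range p).filter (fun t => ¬ p ∣ q₀ * (t + i) + 1 ∧ ¬ p ∣ q₀ * (t + j) + 1)).card
      = (p - 2) + (if i ≡ j [MOD p] then 1 else 0) := by
  have := Fact.mk hp
  set a := (-(q₀ : ZMod p)⁻¹ - (i : ZMod p)).val with ha
  set b := (-(q₀ : ZMod p)⁻¹ - (j : ZMod p)).val with hb
  have ha' : a < p := ZMod.val_lt _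
  have hb' : b < p := ZMod.val_lt _
  have hset : (range p).filter (fun t => ¬ p ∣ q₀ * (t + i) + 1 ∧ ¬ p ∣ q₀ * (t + j) + 1)
      = (range p) \ {a, b} := by
    ext t
    simp only [mem_filter, mem_range, mem_sdiff, mem_insert, mem_singleton, not_or]
    constructor
    · rintro ⟨h1, h2, h3⟩
      rw [one_class q₀ p i hp hq t h1] at h2
      rw [one_class q₀ p j hp hq t h1] at h3
      exact ⟨h1, h2, h3⟩
    · rintro ⟨h1, h2, h3⟩
      refine ⟨h1, ?_, ?_⟩
      · rw [one_class q₀ p i hp hq t h1]; exact h2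
      · rw [one_class q₀ p j hp hq t h1]; exact h3
  have hsub : ({a, b} : Finset ℕ) ⊆ range p := by
    intro t ht
    rcases mem_insert.1 ht with h | h
    · rw [h]; exact mem_range.2 ha'
    · rw [mem_singleton.1 h]; exact mem_range.2 hb'
  rw [hset, card_sdiff_of_subset hsub, card_range]
  have h2 := hp.two_le
  have hab : a = b ↔ i ≡ j [MOD p] := by
    rw [ha, hb, (ZMod.val_injective p).eq_iff, ← ZMod.natCast_eq_natCast_iff]
    constructor
    · intro h; linear_combination -h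
    · intro h; rw [h]
  by_cases h : i ≡ j [MOD p]
  · rw [if_pos h, hab.2 h]
    simp
    omega
  · rw [if_neg h, card_pair (fun h' => h (hab.1 h'))]
    omega

/-- The counts of pairs. -/
def c (q₀ w y i j : ℕ) : ℕ :=
  ((range (Q w y)).filter (fun t => Gd q₀ w y (t + i) ∧ Gd q₀ w y (t + j))).card

theorem c_self (q₀ w i j : ℕ) : c q₀ w w i j = 1 := by
  have h1 : Q w w = 1 := by simp [Q, Sy_self]
  have h2 : ∀ t, Gd q₀ w w t := by
    intro t p hp
    rw [Sy_self] at hp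
    exact absurd hp (notMem_empty _)
  rw [c, h1, filter_true_of_mem]
  · simp
  · intro t _
    exact ⟨h2 _, h2 _⟩

theorem c_succ (q₀ w y i j : ℕ) (hwy : w ≤ y) (hp : (y + 1).Prime) (hq : ¬ (y + 1) ∣ q₀) :
    c q₀ w (y + 1) i j = c q₀ w y i j * ((y + 1 - 2) + (if i ≡ j [MOD (y + 1)] then 1 else 0)) := by
  obtain ⟨h1, h2⟩ := Sy_succ_prime w y hwy hp
  have hQ : Q w (y + 1) = Q w y * (y + 1) := by
    rw [Q, h1, prod_insert h2, mul_comm]; rfl
  have hG : ∀ t, Gd q₀ w (y + 1) t ↔ Gd q₀ w y t ∧ ¬ (y + 1) ∣ q₀ * t + 1 := by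
    intro t
    unfold Gd
    rw [h1]
    constructor
    · intro h
      exact ⟨fun p hp => h p (mem_insert_of_mem hp), h _ (mem_insert_self _ _)⟩
    · rintro ⟨h3, h4⟩ p hp
      rcases mem_insert.1 hp with h5 | h5
      · rw [h5]; exact h4
      · exact h3 p h5
  have hcop : Nat.Coprime (Q w y) (y + 1) := by
    refine Nat.Coprime.prod_left ?_
    intro p hp'
    have h3 := mem_filter.1 hp'
    refine (Nat.coprime_primes h3.2 hp).2 ?_
    rintro rfl
    exact h2 hp'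
  rw [← local_count q₀ (y + 1) i j hp hq, c, c, hQ,
    ← crt_count (Q w y) (y + 1) (Q_pos w y).ne' (by omega) hcop]
  · congr 1
    refine filter_congr ?_
    intro t _
    rw [hG, hG]
    tauto
  · intro t s hts h
    exact ⟨Gd_mod q₀ w y _ _ (hts.add_right i) h.1, Gd_mod q₀ w y _ _ (hts.add_right j) h.2⟩
  · intro t s hts h
    have key : ∀ k, ¬ (y + 1) ∣ q₀ * (t + k) + 1 → ¬ (y + 1) ∣ q₀ * (s + k) + 1 := by
      intro k hk hd
      refine hk ?_
      have h3 : q₀ * (t + k) + 1 ≡ q₀ * (s + k) + 1 [MOD (y + 1)] :=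
        ((hts.add_right k).mul_left q₀).add_right 1
      exact (Nat.modEq_zero_iff_dvd.1 (h3.trans (Nat.modEq_zero_iff_dvd.2 hd)))
    exact ⟨key i h.1, key j h.2⟩

theorem c_not (q₀ w y i j : ℕ) (hp : ¬ (y + 1).Prime) : c q₀ w (y + 1) i j = c q₀ w y i j := by
  unfold c Gd Q
  simp only [Sy_succ_not w y hp]

theorem c_diag (q₀ w y i : ℕ) (hwy : w ≤ y) (hq : ∀ p, w < p → p.Prime → ¬ p ∣ q₀) :
    c q₀ w y i i = ph w y := by
  induction y, hwy using Nat.le_induction with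
  | base => rw [c_self, ph, Sy_self]; simp
  | succ y hwy ih =>
    by_cases hp : (y + 1).Prime
    · obtain ⟨h1, h2⟩ := Sy_succ_prime w y hwy hp
      rw [c_succ q₀ w y i i hwy hp (hq _ (by omega) hp), ih, if_pos (Nat.ModEq.refl i), ph, ph, h1,
        prod_insert h2, mul_comm]
      congr 1
      have := hp.two_le
      omega
    · rw [c_not _ _ _ _ _ hp, ih, ph, ph, Sy_succ_not w y hp]

theorem c_le (q₀ w y i j : ℕ) (hwy : w ≤ y) (hq : ∀ p, w < p → p.Prime → ¬ p ∣ q₀) :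
    c q₀ w y i j ≤ ph w y := by
  rw [← c_diag q₀ w y i hwy hq]
  refine card_le_card ?_
  intro t ht
  have := mem_filter.1 ht
  exact mem_filter.2 ⟨this.1, this.2.1, this.2.1⟩

end Pool.Agent.V7H30.EE
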