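import Mathlib
import Pool.Agent.V7H30.EE.Core

/-!
# The second moment
-/

set_option autoImplicit false

open Finset

namespace Pool.Agent.V7H30.EE

theorem pairs_le (J p i : ℕ) (hp : 0 < p) :
    (∑ j ∈ range J, (if i ≡ j [MOD p] then (1 : ℝ) else 0)) ≤ (J : ℝ) / p + 1 := by
  have h1 : (∑ j ∈ range J, (if i ≡ j [MOD p] then (1 : ℝ) else 0))
      = ((J.count (fun j => j ≡ i [MOD p]) : ℕ) : ℝ) := by
    rw [Nat.count_eq_card_filter_range, card_filter]
    push_cast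
    refine sum_congr rfl ?_
    intro j _
    by_cases h : i ≡ j [MOD p]
    · rw [if_pos h, if_pos h.symm]
    · rw [if_neg h, if_neg (fun h' => h h'.symm)]
  rw [h1, Nat.count_modEq_card _ hp]
  have h2 : ((J / p : ℕ) : ℝ) ≤ (J : ℝ) / p := Nat.cast_div_le
  split_ifs
  · push_cast; linarith
  · push_cast; linarith

/-- `Q / ph` is at most the square root of `y`. -/
theorem Q_le (w y : ℕ) (hw : 2 ≤ w) (hwy : w ≤ y) :
    (Even y → ((Q w y : ℕ) : ℝ) ^ 2 ≤ ((y : ℝ) - 1) * ((ph w y : ℕ) : ℝ) ^ 2) ∧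
    (¬ Even y → ((Q w y : ℕ) : ℝ) ^ 2 ≤ (y : ℝ) * ((ph w y : ℕ) : ℝ) ^ 2) := by
  induction y, hwy using Nat.le_induction with
  | base =>
    have h1 : Q w w = 1 := by simp [Q, Sy_self]
    have h2 : ph w w = 1 := by simp [ph, Sy_self]
    have h3 : (2 : ℝ) ≤ (w : ℝ) := by exact_mod_cast hw
    rw [h1, h2]
    constructor
    · intro _; push_cast; linarith
    · intro _; push_cast; linarith
  | succ y hwy ih =>
    have hy : (2 : ℝ) ≤ (y : ℝ) := by exact_mod_cast hw.trans hwy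
    have hph : (0 : ℝ) ≤ ((ph w y : ℕ) : ℝ) ^ 2 := by positivity
    by_cases hp : (y + 1).Prime
    · obtain ⟨h1, h2⟩ := Sy_succ_prime w y hwy hp
      have hodd : ¬ Even (y + 1) := by
        intro he
        have := (Nat.Prime.even_iff hp).1 he
        omega
      have hev : Even y := by
        rcases Nat.even_or_odd y with h | h
        · exact h
        · exact absurd h.add_one hodd
      have hQ : Q w (y + 1) = (y + 1) * Q w y := by
        rw [Q, h1, prod_insert h2]; rfl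
      have hP : ph w (y + 1) = y * ph w y := by
        rw [ph, h1, prod_insert h2]; rfl
      refine ⟨fun h => absurd h hodd, fun _ => ?_⟩
      rw [hQ, hP]
      push_cast
      have h3 := ih.1 hev
      have h4 : ((y : ℝ) + 1) ^ 2 * ((Q w y : ℕ) : ℝ) ^ 2
          ≤ ((y : ℝ) + 1) ^ 2 * (((y : ℝ) - 1) * ((ph w y : ℕ) : ℝ) ^ 2) :=
        mul_le_mul_of_nonneg_left h3 (by positivity)
      have h5 : ((y : ℝ) + 1) * (((y : ℝ) + 1) * ((y : ℝ) - 1)) ≤ ((y : ℝ) + 1) * (y : ℝ) ^ 2 := by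
        refine mul_le_mul_of_nonneg_left ?_ (by linarith)
        nlinarith
      have h6 := mul_le_mul_of_nonneg_right h5 hph
      nlinarith
    · have hQ : Q w (y + 1) = Q w y := by rw [Q, Sy_succ_not w y hp]; rfl
      have hP : ph w (y + 1) = ph w y := by rw [ph, Sy_succ_not w y hp]; rfl
      rw [hQ, hP]
      push_cast
      constructor
      · intro he
        have hy' : ¬ Even y := by
          intro h
          rw [Nat.even_add_one] at he
          exact he h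
        have := ih.2 hy'
        linarith
      · intro he
        have hy' : Even y := by
          by_contra h
          exact he (Nat.even_add_one.2 h)
        have := ih.1 hy'
        nlinarith

theorem Q_le_sqrt (w y : ℕ) (hw : 2 ≤ w) (hwy : w ≤ y) :
    ((Q w y : ℕ) : ℝ) ≤ √(y : ℝ) * ((ph w y : ℕ) : ℝ) := by
  have h1 : ((Q w y : ℕ) : ℝ) ^ 2 ≤ (y : ℝ) * ((ph w y : ℕ) : ℝ) ^ 2 := by
    by_cases h : Even y
    · have h2 := (Q_le w y hw hwy).1 h
      have hph : (0 : ℝ) ≤ ((ph w y : ℕ) : ℝ) ^ 2 := by positivity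
      nlinarith
    · exact (Q_le w y hw hwy).2 h
  refine le_of_sq_le_sq ?_ (by positivity)
  rw [mul_pow, Real.sq_sqrt (by positivity)]
  exact h1

/-- The second moment. -/
noncomputable def A (q₀ w y J : ℕ) : ℝ := ∑ i ∈ range J, ∑ j ∈ range J, ((c q₀ w y i j : ℕ) : ℝ)

theorem A_nonneg (q₀ w y J : ℕ) : 0 ≤ A q₀ w y J := by unfold A; positivity

theorem A_succ (q₀ w y J : ℕ) (hw : 2 ≤ w) (hwy : w ≤ y) (hp : (y + 1).Prime)
    (hq : ∀ p, w < p → p.Prime → ¬ p ∣ q₀) :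
    A q₀ w (y + 1) J ≤ ((y : ℝ) - 1) * A q₀ w y J
      + ((ph w y : ℕ) : ℝ) * (J * ((J : ℝ) / ((y : ℝ) + 1) + 1)) := by
  have h1 : ∀ i j, ((c q₀ w (y + 1) i j : ℕ) : ℝ)
      ≤ ((y : ℝ) - 1) * ((c q₀ w y i j : ℕ) : ℝ)
        + ((ph w y : ℕ) : ℝ) * (if i ≡ j [MOD (y + 1)] then (1 : ℝ) else 0) := by
    intro i j
    rw [c_succ q₀ w y i j hwy hp (hq _ (by omega) hp)]
    have h2 : ((c q₀ w y i j : ℕ) : ℝ) ≤ ((ph w y : ℕ) : ℝ) := by
      exact_mod_cast c_le q₀ w y i j hwy hq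
    have h3 : ((y + 1 - 2 : ℕ) : ℝ) = (y : ℝ) - 1 := by
      rw [Nat.cast_sub (by omega)]
      push_cast; ring
    rw [Nat.cast_mul, Nat.cast_add, h3]
    split_ifs
    · push_cast; linarith
    · push_cast; linarith
  unfold A
  calc ∑ i ∈ range J, ∑ j ∈ range J, ((c q₀ w (y + 1) i j : ℕ) : ℝ)
      ≤ ∑ i ∈ range J, ∑ j ∈ range J, (((y : ℝ) - 1) * ((c q₀ w y i j : ℕ) : ℝ)
        + ((ph w y : ℕ) : ℝ) * (if i ≡ j [MOD (y + 1)] then (1 : ℝ) else 0)) :=
        sum_le_sum (fun i _ => sum_le_sum (fun j _ => h1 i j))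
    _ = ((y : ℝ) - 1) * (∑ i ∈ range J, ∑ j ∈ range J, ((c q₀ w y i j : ℕ) : ℝ))
        + ((ph w y : ℕ) : ℝ) * (∑ i ∈ range J, ∑ j ∈ range J,
          (if i ≡ j [MOD (y + 1)] then (1 : ℝ) else 0)) := by
        simp only [sum_add_distrib, mul_sum]
    _ ≤ _ := by
        have h4 : (∑ i ∈ range J, ∑ j ∈ range J, (if i ≡ j [MOD (y + 1)] then (1 : ℝ) else 0))
            ≤ J * ((J : ℝ) / ((y : ℝ) + 1) + 1) := by
          have h5 : ∀ i ∈ range J, (∑ j ∈ range J, (if i ≡ j [MOD (y + 1)] then (1 : ℝ) else 0))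
              ≤ (J : ℝ) / ((y : ℝ) + 1) + 1 := by
            intro i _
            have := pairs_le J (y + 1) i (by omega)
            push_cast at this
            exact this
          have h6 := sum_le_sum h5
          rw [sum_const, card_range, nsmul_eq_mul] at h6
          exact h6
        have h7 : (0 : ℝ) ≤ ((ph w y : ℕ) : ℝ) := by positivity
        have h8 := mul_le_mul_of_nonneg_left h4 h7
        linarith

theorem A_not (q₀ w y J : ℕ) (hp : ¬ (y + 1).Prime) : A q₀ w (y + 1) J = A q₀ w y J := by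
  unfold A
  simp only [c_not q₀ w y _ _ hp]

theorem A_self (q₀ w J : ℕ) : A q₀ w w J = (J : ℝ) ^ 2 := by
  unfold A
  simp only [c_self]
  simp
  ring

/-- The bound. -/
noncomputable def B (w y J : ℕ) : ℝ :=
  1 + 9 / 2 * (1 / √(w : ℝ) - 1 / √(y : ℝ)) + 9 / 2 * √(y : ℝ) / J

theorem sqrt_facts (y : ℕ) (hy : 2 ≤ y) :
    √(y : ℝ) * 1 ≤ ((y : ℝ)) ^ 2 * (9 / 2 * (1 / √(y : ℝ) - 1 / √((y : ℝ) + 1))) ∧
    ((y : ℝ) + 1) * √(y : ℝ) ≤ ((y : ℝ)) ^ 2 * (9 / 2 * (√((y : ℝ) + 1) - √(y : ℝ))) ∧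
    √(y : ℝ) ≤ √((y : ℝ) + 1) := by
  have hy' : (2 : ℝ) ≤ (y : ℝ) := by exact_mod_cast hy
  set u := √(y : ℝ) with hu
  set v := √((y : ℝ) + 1) with hv
  have hu2 : u ^ 2 = (y : ℝ) := Real.sq_sqrt (by linarith)
  have hv2 : v ^ 2 = (y : ℝ) + 1 := Real.sq_sqrt (by linarith)
  have hu0 : 0 < u := Real.sqrt_pos.2 (by linarith)
  have hv0 : 0 < v := Real.sqrt_pos.2 (by linarith)
  have huv : u ≤ v := Real.sqrt_le_sqrt (by linarith)
  have hvu : v ≤ 5 / 4 * u := by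
    refine le_of_sq_le_sq ?_ (by positivity)
    rw [mul_pow, hu2, hv2]
    nlinarith
  have hd : (v - u) * (v + u) = 1 := by nlinarith
  have hd2 : 4 / 9 ≤ (v - u) * u := by
    have h1 : v + u ≤ 9 / 4 * u := by linarith
    have h2 : 0 ≤ v - u := by linarith
    have h3 := mul_le_mul_of_nonneg_left h1 h2
    nlinarith
  rw [← hu2]
  refine ⟨?_, ?_, huv⟩
  · have h1 : (u ^ 2) ^ 2 * (9 / 2 * (1 / u - 1 / v)) = 9 / 2 * u ^ 2 * ((v - u) * u) / v := by
      field_simp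
    rw [h1, mul_one, le_div_iff₀ hv0]
    have h2 : 9 / 2 * u ^ 2 * (4 / 9) ≤ 9 / 2 * u ^ 2 * ((v - u) * u) :=
      mul_le_mul_of_nonneg_left hd2 (by positivity)
    nlinarith
  · have h1 : u ^ 2 + 1 = v ^ 2 := by rw [hv2, hu2]
    rw [h1]
    have h2 : (u ^ 2) ^ 2 * (9 / 2 * (v - u)) = 9 / 2 * u ^ 3 * ((v - u) * u) := by ring
    rw [h2]
    have h3 : 9 / 2 * u ^ 3 * (4 / 9) ≤ 9 / 2 * u ^ 3 * ((v - u) * u) :=
      mul_le_mul_of_nonneg_left hd2 (by positivity)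
    have h4 : v ^ 2 ≤ 25 / 16 * u ^ 2 := by nlinarith
    have h5 : v ^ 2 * u ≤ 25 / 16 * u ^ 2 * u := mul_le_mul_of_nonneg_right h4 hu0.le
    nlinarith [pow_pos hu0 3]

theorem main_bound (q₀ w y J : ℕ) (hw : 2 ≤ w) (hwy : w ≤ y) (hJ : 0 < J)
    (hq : ∀ p, w < p → p.Prime → ¬ p ∣ q₀) :
    A q₀ w y J * ((Q w y : ℕ) : ℝ) ≤ B w y J * ((J : ℝ) * ((ph w y : ℕ) : ℝ)) ^ 2 := by
  have hJ' : (0 : ℝ) < (J : ℝ) := by exact_mod_cast hJ
  induction y, hwy using Nat.le_induction with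
  | base =>
    have h1 : Q w w = 1 := by simp [Q, Sy_self]
    have h2 : ph w w = 1 := by simp [ph, Sy_self]
    rw [A_self, h1, h2, B]
    have h3 : 0 ≤ 9 / 2 * √(w : ℝ) / J := by positivity
    push_cast
    nlinarith [sq_nonneg (J : ℝ)]
  | succ y hwy ih =>
    obtain ⟨f1, f2, f3⟩ := sqrt_facts y (hw.trans hwy)
    have hy : (2 : ℝ) ≤ (y : ℝ) := by exact_mod_cast hw.trans hwy
    have hBB : B w (y + 1) J = B w y J + 9 / 2 * (1 / √(y : ℝ) - 1 / √((y : ℝ) + 1))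
        + 9 / 2 * (√((y : ℝ) + 1) - √(y : ℝ)) / J := by
      unfold B
      push_cast
      ring
    have g1 : 0 ≤ 9 / 2 * (1 / √(y : ℝ) - 1 / √((y : ℝ) + 1)) := by
      have hu0 : 0 < √(y : ℝ) := Real.sqrt_pos.2 (by linarith)
      have := one_div_le_one_div_of_le hu0 f3
      linarith
    have g2 : 0 ≤ 9 / 2 * (√((y : ℝ) + 1) - √(y : ℝ)) / J := by
      have : 0 ≤ √((y : ℝ) + 1) - √(y : ℝ) := by linarith
      positivity
    by_cases hp : (y + 1).Prime
    · obtain ⟨h1, h2⟩ := Sy_succ_prime w y hwy hp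
      have hQ : Q w (y + 1) = (y + 1) * Q w y := by
        rw [Q, h1, prod_insert h2]; rfl
      have hP : ph w (y + 1) = y * ph w y := by
        rw [ph, h1, prod_insert h2]; rfl
      have hA := A_succ q₀ w y J hw hwy hp hq
      have hQs := Q_le_sqrt w y hw hwy
      have hAn := A_nonneg q₀ w y J
      rw [hQ, hP]
      push_cast
      set q : ℝ := ((Q w y : ℕ) : ℝ) with hqdef
      set f : ℝ := ((ph w y : ℕ) : ℝ) with hfdef
      set a : ℝ := A q₀ w y J with hadef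
      set Y : ℝ := (y : ℝ) with hY
      have hq0 : 0 ≤ q := by positivity
      have hf0 : 0 ≤ f := by positivity
      have s1 : A q₀ w (y + 1) J * ((Y + 1) * q)
          ≤ ((Y - 1) * a + f * (J * ((J : ℝ) / (Y + 1) + 1))) * ((Y + 1) * q) :=
        mul_le_mul_of_nonneg_right hA (by positivity)
      have s2 : (Y - 1) * a * ((Y + 1) * q) ≤ Y ^ 2 * (B w y J * ((J : ℝ) * f) ^ 2) := by
        have t1 : (Y - 1) * a * ((Y + 1) * q) = (Y ^ 2 - 1) * (a * q) := by ring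
        have t2 : (Y ^ 2 - 1) * (a * q) ≤ Y ^ 2 * (a * q) :=
          mul_le_mul_of_nonneg_right (by linarith) (by positivity)
        have t3 := mul_le_mul_of_nonneg_left ih (show (0 : ℝ) ≤ Y ^ 2 by positivity)
        linarith
      have s3 : f * (J * ((J : ℝ) / (Y + 1) + 1)) * ((Y + 1) * q)
          ≤ f * (J * ((J : ℝ) / (Y + 1) + 1)) * ((Y + 1) * (√Y * f)) := by
        refine mul_le_mul_of_nonneg_left ?_ (by positivity)
        exact mul_le_mul_of_nonneg_left hQs (by positivity)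
      have s4 : f * (J * ((J : ℝ) / (Y + 1) + 1)) * ((Y + 1) * (√Y * f))
          = ((J : ℝ) * f) ^ 2 * (√Y * 1 + ((Y + 1) * √Y) / J) := by
        field_simp
      have s5 : ((J : ℝ) * f) ^ 2 * (√Y * 1 + ((Y + 1) * √Y) / J)
          ≤ ((J : ℝ) * f) ^ 2 * (Y ^ 2 * (9 / 2 * (1 / √Y - 1 / √(Y + 1)))
            + (Y ^ 2 * (9 / 2 * (√(Y + 1) - √Y))) / J) := by
        refine mul_le_mul_of_nonneg_left ?_ (by positivity)
        exact add_le_add f1 (div_le_div_of_nonneg_right f2 hJ'.le)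
      rw [hBB]
      have s6 : (B w y J + 9 / 2 * (1 / √Y - 1 / √(Y + 1)) + 9 / 2 * (√(Y + 1) - √Y) / J)
          * ((J : ℝ) * (Y * f)) ^ 2
          = Y ^ 2 * (B w y J * ((J : ℝ) * f) ^ 2)
            + ((J : ℝ) * f) ^ 2 * (Y ^ 2 * (9 / 2 * (1 / √Y - 1 / √(Y + 1)))
            + (Y ^ 2 * (9 / 2 * (√(Y + 1) - √Y))) / J) := by
        ring
      rw [s6]
      have s7 : ((Y - 1) * a + f * (J * ((J : ℝ) / (Y + 1) + 1))) * ((Y + 1) * q)
          = (Y - 1) * a * ((Y + 1) * q) + f * (J * ((J : ℝ) / (Y + 1) + 1)) * ((Y + 1) * q) := by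
        ring
      linarith
    · have hQ : Q w (y + 1) = Q w y := by rw [Q, Sy_succ_not w y hp]; rfl
      have hP : ph w (y + 1) = ph w y := by rw [ph, Sy_succ_not w y hp]; rfl
      rw [hQ, hP, A_not q₀ w y J hp, hBB]
      have h3 : B w y J * ((J : ℝ) * ((ph w y : ℕ) : ℝ)) ^ 2
          ≤ (B w y J + 9 / 2 * (1 / √(y : ℝ) - 1 / √((y : ℝ) + 1))
            + 9 / 2 * (√((y : ℝ) + 1) - √(y : ℝ)) / J) * ((J : ℝ) * ((ph w y : ℕ) : ℝ)) ^ 2 :=
        mul_le_mul_of_nonneg_right (by linarith) (by positivity)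
      linarith

/-- All the numbers of the window have small prime factors. -/
def Bt (q₀ w y J t : ℕ) : Prop := ∀ j ∈ range J, ¬ Gd q₀ w y (t + j)

instance (q₀ w y J t : ℕ) : Decidable (Bt q₀ w y J t) := by unfold Bt; infer_instance

/-- The number of bad classes. -/
def Z (q₀ w y J : ℕ) : ℕ := ((range (Q w y)).filter (fun t => Bt q₀ w y J t)).card

theorem Z_le (q₀ w y J : ℕ) (hw : 2 ≤ w) (hwy : w ≤ y) (hJ : 0 < J)
    (hq : ∀ p, w < p → p.Prime → ¬ p ∣ q₀) :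
    ((Z q₀ w y J : ℕ) : ℝ) ≤ ((Q w y : ℕ) : ℝ) * (B w y J - 1) := by
  have hJ' : (0 : ℝ) < (J : ℝ) := by exact_mod_cast hJ
  set X : ℕ → ℝ := fun t => ∑ j ∈ range J, (if Gd q₀ w y (t + j) then (1 : ℝ) else 0) with hX
  have hsum1 : ∑ t ∈ range (Q w y), X t = (J : ℝ) * ((ph w y : ℕ) : ℝ) := by
    rw [hX]
    simp only
    rw [sum_comm]
    have h1 : ∀ j ∈ range J, ∑ t ∈ range (Q w y), (if Gd q₀ w y (t + j) then (1 : ℝ) else 0)
        = ((ph w y : ℕ) : ℝ) := by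
      intro j _
      rw [← c_diag q₀ w y j hwy hq, c, card_filter]
      push_cast
      refine sum_congr rfl ?_
      intro t _
      simp only [and_self]
    rw [sum_congr rfl h1, sum_const, card_range, nsmul_eq_mul]
  have hsum2 : ∑ t ∈ range (Q w y), X t ^ 2 = A q₀ w y J := by
    have h1 : ∀ t, X t ^ 2 = ∑ i ∈ range J, ∑ j ∈ range J,
        (if (Gd q₀ w y (t + i) ∧ Gd q₀ w y (t + j)) then (1 : ℝ) else 0) := by
      intro t
      rw [hX, sq, sum_mul_sum]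
      refine sum_congr rfl (fun i _ => sum_congr rfl (fun j _ => ?_))
      by_cases h1 : Gd q₀ w y (t + i) <;> by_cases h2 : Gd q₀ w y (t + j) <;> simp [h1, h2]
    rw [sum_congr rfl (fun t _ => h1 t), sum_comm, A]
    refine sum_congr rfl (fun i _ => ?_)
    rw [sum_comm]
    refine sum_congr rfl (fun j _ => ?_)
    rw [c, card_filter]
    push_cast
    rfl
  set s := (range (Q w y)).filter (fun t => ¬ Bt q₀ w y J t) with hs
  have hX0 : ∀ t ∈ range (Q w y), t ∉ s → X t = 0 := by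
    intro t ht hts
    have hb : Bt q₀ w y J t := by
      by_contra h
      exact hts (mem_filter.2 ⟨ht, h⟩)
    rw [hX]
    refine sum_eq_zero ?_
    intro j hj
    rw [if_neg (hb j hj)]
  have hss : s ⊆ range (Q w y) := filter_subset _ _
  have h1 : ∑ t ∈ s, X t = (J : ℝ) * ((ph w y : ℕ) : ℝ) := by
    rw [← hsum1]
    exact sum_subset hss (fun t ht hts => hX0 t ht hts)
  have h2 : ∑ t ∈ s, X t ^ 2 ≤ A q₀ w y J := by
    rw [← hsum2]
    exact sum_le_sum_of_subset_of_nonneg hss (fun t _ _ => sq_nonneg _)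
  have h3 : (∑ t ∈ s, X t) ^ 2 ≤ (s.card : ℝ) * ∑ t ∈ s, X t ^ 2 := sq_sum_le_card_mul_sum_sq
  have hcard : Z q₀ w y J + s.card = Q w y := by
    rw [Z, hs, card_filter_add_card_filter_not, card_range]
  have hcard' : ((Z q₀ w y J : ℕ) : ℝ) + (s.card : ℝ) = ((Q w y : ℕ) : ℝ) := by
    exact_mod_cast hcard
  have hm := main_bound q₀ w y J hw hwy hJ hq
  have hQ0 : (0 : ℝ) < ((Q w y : ℕ) : ℝ) := by exact_mod_cast Q_pos w y
  have hp0 : (0 : ℝ) < ((ph w y : ℕ) : ℝ) := by exact_mod_cast ph_pos w y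
  have hE : (0 : ℝ) < ((J : ℝ) * ((ph w y : ℕ) : ℝ)) ^ 2 := by positivity
  have hs0 : (0 : ℝ) ≤ (s.card : ℝ) := by positivity
  rw [h1] at h3
  have h4 : ((J : ℝ) * ((ph w y : ℕ) : ℝ)) ^ 2 * ((Q w y : ℕ) : ℝ)
      ≤ (s.card : ℝ) * (B w y J * ((J : ℝ) * ((ph w y : ℕ) : ℝ)) ^ 2) := by
    have h5 : (s.card : ℝ) * ∑ t ∈ s, X t ^ 2 ≤ (s.card : ℝ) * A q₀ w y J :=
      mul_le_mul_of_nonneg_left h2 hs0
    have h6 := mul_le_mul_of_nonneg_right (h3.trans h5) hQ0.le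
    have h7 := mul_le_mul_of_nonneg_left hm hs0
    linarith
  have h8 : ((Q w y : ℕ) : ℝ) ≤ (s.card : ℝ) * B w y J := by
    by_contra hcon
    push Not at hcon
    have := mul_lt_mul_of_pos_left hcon hE
    linarith
  have hB1 : 1 ≤ B w y J := by
    by_contra hcon
    push Not at hcon
    have h9 : (s.card : ℝ) * B w y J ≤ (s.card : ℝ) * 1 := mul_le_mul_of_nonneg_left hcon.le hs0
    have h10 : (s.card : ℝ) ≤ ((Q w y : ℕ) : ℝ) := by
      have : (0 : ℝ) ≤ ((Z q₀ w y J : ℕ) : ℝ) := by positivity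
      linarith
    have h11 : (0 : ℝ) < (s.card : ℝ) := by
      rcases hs0.lt_or_eq with h | h
      · exact h
      · rw [← h] at h8; linarith
    have h12 : (s.card : ℝ) * B w y J < (s.card : ℝ) * 1 := mul_lt_mul_of_pos_left hcon h11
    linarith
  have hZ0 : (0 : ℝ) ≤ ((Z q₀ w y J : ℕ) : ℝ) := by positivity
  nlinarith

end Pool.Agent.V7H30.EE
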