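import Mathlib
import Pool.Agent.V7H30.EE.Var

/-!
# From classes to integers
-/

set_option autoImplicit false

open Finset Filter Topology

namespace Pool.Agent.V7H30.EE

/-- `F(n)`: the largest value of `m + p(m)` over the composite numbers `m < n`. -/
def F (n : ℕ) : ℕ := ((range n).filter (fun m => 1 < m ∧ ¬ m.Prime)).sup (fun m => m + m.minFac)

theorem le_F (n m : ℕ) (h1 : m < n) (h2 : 1 < m) (h3 : ¬ m.Prime) : m + m.minFac ≤ F n :=
  Finset.le_sup (f := fun m : ℕ => m + m.minFac) (mem_filter.2 ⟨mem_range.2 h1, h2, h3⟩)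

theorem Bt_mod (q₀ w y J t s : ℕ) (h : t ≡ s [MOD Q w y]) (hb : Bt q₀ w y J t) :
    Bt q₀ w y J s := by
  intro j hj hg
  exact hb j hj (Gd_mod q₀ w y _ _ (h.symm.add_right j) hg)

theorem count_Bt (q₀ w y J k : ℕ) :
    ((range (k * Q w y)).filter (fun t => Bt q₀ w y J t)).card = k * Z q₀ w y J := by
  induction k with
  | zero => simp
  | succ k ih =>
    have h1 : range ((k + 1) * Q w y) = range (k * Q w y) ∪ Ico (k * Q w y) (k * Q w y + Q w y) := by
      ext t
      simp only [mem_range, mem_union, mem_Ico]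
      have : (k + 1) * Q w y = k * Q w y + Q w y := by ring
      omega
    have h2 : Disjoint (range (k * Q w y)) (Ico (k * Q w y) (k * Q w y + Q w y)) := by
      rw [Finset.disjoint_left]
      intro t h3 h4
      have := mem_range.1 h3
      have := (mem_Ico.1 h4).1
      omega
    rw [h1, filter_union, card_union_of_disjoint (disjoint_filter_filter h2), ih]
    have hper : Function.Periodic (fun t => Bt q₀ w y J t) (Q w y) := by
      intro t
      have h5 : t + Q w y ≡ t [MOD Q w y] := by simp [Nat.ModEq]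
      exact propext ⟨Bt_mod q₀ w y J _ _ h5, Bt_mod q₀ w y J _ _ h5.symm⟩
    rw [Nat.filter_Ico_card_eq_of_periodic _ _ _ hper, Nat.count_eq_card_filter_range, Z]
    ring

/-- The finite statement. -/
theorem finite_bound (w J C x : ℕ) (hw : 2 ≤ w) (hJ : 0 < J) :
    ((range x).filter (fun n => F n ≤ n + C)).card
      ≤ w.factorial * (J + 1)
        + w.factorial * (((x / w.factorial + 1) / Q w (w.factorial * (J + 1) + C) + 1)
          * Z w.factorial w (w.factorial * (J + 1) + C) J)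
        + x.primeCounting * (w.factorial * (J + 1)) := by
  set q₀ := w.factorial with hq₀
  set H := q₀ * (J + 1) with hH
  set y := H + C with hy
  have hq2 : 2 ≤ q₀ := by
    have : Nat.factorial 2 ≤ w.factorial := Nat.factorial_le hw
    simpa using this
  have hwy : w ≤ y := by
    have h1 : w ≤ q₀ := Nat.self_le_factorial w
    have h2 : q₀ ≤ H := Nat.le_mul_of_pos_right _ (by omega)
    omega
  -- three covering sets
  set S1 := range H with hS1
  set T := x / q₀ + 1 with hT
  set S2 := (((range ((T / Q w y + 1) * Q w y)).filter (fun t => Bt q₀ w y J t)) ×ˢ range q₀).image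
    (fun u => q₀ * (u.1 + J) + u.2) with hS2
  set S3 := (((range (x + 1)).filter Nat.Prime) ×ˢ range H).image (fun u => u.1 + u.2) with hS3
  have hcover : (range x).filter (fun n => F n ≤ n + C) ⊆ S1 ∪ S2 ∪ S3 := by
    intro n hn
    obtain ⟨hnx, hF⟩ := mem_filter.1 hn
    have hnx := mem_range.1 hnx
    by_cases h1 : n < H
    · exact mem_union_left _ (mem_union_left _ (mem_range.2 h1))
    have hs : J + 1 ≤ n / q₀ := by
      rw [Nat.le_div_iff_mul_le (by omega), mul_comm]
      omega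
    obtain ⟨t, ht⟩ : ∃ t, n / q₀ = t + J := ⟨n / q₀ - J, by omega⟩
    have hdm := Nat.div_add_mod n q₀
    have hmod : n % q₀ < q₀ := Nat.mod_lt _ (by omega)
    rw [ht] at hdm
    by_cases hb : Bt q₀ w y J t
    · refine mem_union_left _ (mem_union_right _ (mem_image.2 ⟨(t, n % q₀), ?_, hdm⟩))
      refine mem_product.2 ⟨mem_filter.2 ⟨mem_range.2 ?_, hb⟩, mem_range.2 hmod⟩
      have h2 : t < T := by
        have : n / q₀ ≤ x / q₀ := Nat.div_le_div_right hnx.le
        omega
      have h3 := Nat.lt_div_mul_add (a := T) (Q_pos w y)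
      have h4 : (T / Q w y + 1) * Q w y = T / Q w y * Q w y + Q w y := by ring
      omega
    · refine mem_union_right _ ?_
      unfold Bt at hb
      push Not at hb
      obtain ⟨j, hj, hg⟩ := hb
      have hj := mem_range.1 hj
      set m := q₀ * (t + j) + 1 with hm
      have htj : 1 ≤ t + j := by omega
      have hm1 : 1 < m := by
        have : 1 * 1 ≤ q₀ * (t + j) := Nat.mul_le_mul (by omega) htj
        omega
      have hmn : m < n := by
        have h2 : q₀ * (t + j) + q₀ ≤ q₀ * (t + J) := by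
          have : q₀ * (t + j) + q₀ = q₀ * (t + j + 1) := by ring
          rw [this]
          exact Nat.mul_le_mul_left _ (by omega)
        omega
      have hnm : n < m + H := by
        have h2 : q₀ * (t + J) + q₀ ≤ q₀ * (t + j) + H := by
          rw [hH]
          have : q₀ * (t + J) + q₀ = q₀ * (t + J + 1) := by ring
          rw [this, ← Nat.mul_add]
          exact Nat.mul_le_mul_left _ (by omega)
        omega
      have hmf : y < m.minFac := by
        have hp : m.minFac.Prime := Nat.minFac_prime (by omega)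
        have hd : m.minFac ∣ m := Nat.minFac_dvd m
        have h2 : w < m.minFac := by
          by_contra hle
          have h3 : m.minFac ∣ q₀ := (Nat.Prime.dvd_factorial hp).2 (by omega)
          have h4 : m.minFac ∣ 1 := by
            have h5 : m.minFac ∣ q₀ * (t + j) := h3.mul_right _
            exact (Nat.dvd_add_right h5).1 hd
          exact hp.one_lt.ne' (Nat.dvd_one.1 h4)
        by_contra hle
        exact hg m.minFac (mem_filter.2 ⟨mem_Ioc.2 ⟨h2, by omega⟩, hp⟩) hd
      have hprime : m.Prime := by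
        by_contra hnp
        have := le_F n m hmn hm1 hnp
        omega
      refine mem_image.2 ⟨(m, n - m), mem_product.2 ⟨mem_filter.2 ⟨mem_range.2 (by omega), hprime⟩,
        mem_range.2 (by simp only; omega)⟩, by simp only; omega⟩
  have hc1 : S1.card = H := card_range H
  have hc2 : S2.card ≤ q₀ * ((T / Q w y + 1) * Z q₀ w y J) := by
    refine card_image_le.trans ?_
    rw [card_product, count_Bt, card_range]
    exact le_of_eq (by ring)
  have hc3 : S3.card ≤ x.primeCounting * H := by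
    refine card_image_le.trans ?_
    rw [card_product, card_range, Nat.primeCounting, Nat.primeCounting',
      Nat.count_eq_card_filter_range]
  have h := card_le_card hcover
  have h2 := card_union_le (S1 ∪ S2) S3
  have h3 := card_union_le S1 S2
  omega

theorem Q_le_four_pow (w y : ℕ) : Q w y ≤ 4 ^ y := by
  refine le_trans ?_ (primorial_le_four_pow y)
  unfold Q primorial
  refine Finset.prod_le_prod_of_subset_of_one_le' ?_ ?_
  · intro p hp
    have h := mem_filter.1 hp
    have h2 := mem_Ioc.1 h.1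
    exact mem_filter.2 ⟨mem_range.2 (by omega), h.2⟩
  · intro p hp _
    exact (mem_filter.1 hp).2.one_lt.le

/-- The real form of the finite statement. -/
theorem real_bound (w J C x : ℕ) (hw : 2 ≤ w) (hJ : 0 < J) :
    (((range x).filter (fun n => F n ≤ n + C)).card : ℝ)
      ≤ (w.factorial : ℝ) * (J + 1)
        + ((x : ℝ) + w.factorial + w.factorial * (4 : ℝ) ^ (w.factorial * (J + 1) + C))
          * (9 / 2 / √(w : ℝ) + 9 / 2 * (√((w.factorial : ℝ) * (J + 1) + C) / J))
        + (x.primeCounting : ℝ) * ((w.factorial : ℝ) * (J + 1)) := by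
  have h := finite_bound w J C x hw hJ
  set q₀ := w.factorial with hq₀
  set y := q₀ * (J + 1) + C with hy
  have hq2 : 2 ≤ q₀ := by
    have : Nat.factorial 2 ≤ w.factorial := Nat.factorial_le hw
    simpa using this
  have hwy : w ≤ y := by
    have h1 : w ≤ q₀ := Nat.self_le_factorial w
    have h2 : q₀ ≤ q₀ * (J + 1) := Nat.le_mul_of_pos_right _ (by omega)
    omega
  have hq : ∀ p, w < p → p.Prime → ¬ p ∣ q₀ := by
    intro p hp hpp hd
    have := (Nat.Prime.dvd_factorial hpp).1 hd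
    omega
  have hZ := Z_le q₀ w y J hw hwy hJ hq
  have hJ' : (0 : ℝ) < (J : ℝ) := by exact_mod_cast hJ
  have hQ4 : ((Q w y : ℕ) : ℝ) ≤ (4 : ℝ) ^ y := by
    exact_mod_cast Q_le_four_pow w y
  have hQ0 : (0 : ℝ) < ((Q w y : ℕ) : ℝ) := by exact_mod_cast Q_pos w y
  have hycast : (y : ℝ) = (q₀ : ℝ) * (J + 1) + C := by rw [hy]; push_cast; ring
  have hB : B w y J - 1 ≤ 9 / 2 / √(w : ℝ) + 9 / 2 * (√((q₀ : ℝ) * (J + 1) + C) / J) := by
    unfold B
    rw [← hycast]
    have h1 : 0 ≤ 1 / √(y : ℝ) := by positivity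
    have h6 : 9 / 2 * (1 / √(w : ℝ) - 1 / √(y : ℝ)) ≤ 9 / 2 / √(w : ℝ) := by
      have : 9 / 2 * (1 / √(w : ℝ)) = 9 / 2 / √(w : ℝ) := by ring
      linarith
    have h7 : 9 / 2 * √(y : ℝ) / J = 9 / 2 * (√(y : ℝ) / J) := by ring
    rw [h7]
    linarith
  set D := 9 / 2 / √(w : ℝ) + 9 / 2 * (√((q₀ : ℝ) * (J + 1) + C) / J) with hD
  have hD0 : 0 ≤ D := by positivity
  have hZ2 : ((Z q₀ w y J : ℕ) : ℝ) ≤ ((Q w y : ℕ) : ℝ) * D :=
    hZ.trans (mul_le_mul_of_nonneg_left hB hQ0.le)
  have h1 : (((range x).filter (fun n => F n ≤ n + C)).card : ℝ)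
      ≤ (q₀ : ℝ) * (J + 1)
        + (q₀ : ℝ) * ((((x / q₀ + 1) / Q w y : ℕ) + 1) * ((Z q₀ w y J : ℕ) : ℝ))
        + (x.primeCounting : ℝ) * ((q₀ : ℝ) * (J + 1)) := by
    exact_mod_cast h
  have h2 : ((((x / q₀ + 1) / Q w y : ℕ) : ℝ) + 1) * ((Z q₀ w y J : ℕ) : ℝ)
      ≤ ((x : ℝ) / q₀ + 1 + (Q w y : ℕ)) * D := by
    have h3 : (((x / q₀ + 1) / Q w y : ℕ) : ℝ) ≤ ((x : ℝ) / q₀ + 1) / (Q w y : ℕ) := by
      refine Nat.cast_div_le.trans ?_
      refine div_le_div_of_nonneg_right ?_ hQ0.le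
      push_cast
      have : ((x / q₀ : ℕ) : ℝ) ≤ (x : ℝ) / q₀ := Nat.cast_div_le
      linarith
    have h4 : (0 : ℝ) ≤ (((x / q₀ + 1) / Q w y : ℕ) : ℝ) := by positivity
    calc ((((x / q₀ + 1) / Q w y : ℕ) : ℝ) + 1) * ((Z q₀ w y J : ℕ) : ℝ)
        ≤ ((((x / q₀ + 1) / Q w y : ℕ) : ℝ) + 1) * (((Q w y : ℕ) : ℝ) * D) :=
          mul_le_mul_of_nonneg_left hZ2 (by positivity)
      _ ≤ (((x : ℝ) / q₀ + 1) / (Q w y : ℕ) + 1) * (((Q w y : ℕ) : ℝ) * D) :=
          mul_le_mul_of_nonneg_right (by linarith) (by positivity)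
      _ = ((x : ℝ) / q₀ + 1 + (Q w y : ℕ)) * D := by
          field_simp
  have hq0' : (0 : ℝ) < (q₀ : ℝ) := by exact_mod_cast (show 0 < q₀ by omega)
  have h5 : (q₀ : ℝ) * ((((x / q₀ + 1) / Q w y : ℕ) + 1) * ((Z q₀ w y J : ℕ) : ℝ))
      ≤ ((x : ℝ) + q₀ + q₀ * (4 : ℝ) ^ y) * D := by
    have h6 := mul_le_mul_of_nonneg_left h2 hq0'.le
    have h7 : (q₀ : ℝ) * (((x : ℝ) / q₀ + 1 + (Q w y : ℕ)) * D)
        = ((x : ℝ) + q₀ + q₀ * ((Q w y : ℕ) : ℝ)) * D := by
      field_simp
    have h8 : ((x : ℝ) + q₀ + q₀ * ((Q w y : ℕ) : ℝ)) * D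
        ≤ ((x : ℝ) + q₀ + q₀ * (4 : ℝ) ^ y) * D := by
      refine mul_le_mul_of_nonneg_right ?_ hD0
      have := mul_le_mul_of_nonneg_left hQ4 hq0'.le
      linarith
    linarith
  linarith

end Pool.Agent.V7H30.EE
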