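import Mathlib
import Pool.Agent.V7H30.EE.Dens

/-!
# Larger sieve limits
-/

set_option autoImplicit false

open Finset Filter Topology

namespace Pool.Agent.V7H30.EE

theorem count_periodic (P : ℕ → Prop) [DecidablePred P] (N T : ℕ) (hN : 0 < N) (hP : ∀ t s, t ≡ s [MOD N] → P t → P s) :
    ((range T).filter P).card ≤ (T / N + 1) * ((range N).filter P).card := by
  have hk : ∀ k : ℕ, ((range (k * N)).filter P).card = k * ((range N).filter P).card := by
    intro k
    induction k with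
    | zero => simp
    | succ k ih =>
      have h1 : range ((k + 1) * N) = range (k * N) ∪ Ico (k * N) (k * N + N) := by
        ext t
        simp only [mem_range, mem_union, mem_Ico]
        have : (k + 1) * N = k * N + N := by ring
        omega
      have h2 : Disjoint (range (k * N)) (Ico (k * N) (k * N + N)) := by
        rw [Finset.disjoint_left]
        intro t h3 h4
        have := mem_range.1 h3
        have := (mem_Ico.1 h4).1
        omega
      rw [h1, filter_union, card_union_of_disjoint (disjoint_filter_filter h2), ih]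
      have hper : Function.Periodic P N := by
        intro t
        have h5 : t + N ≡ t [MOD N] := by simp [Nat.ModEq]
        exact propext ⟨hP _ _ h5, hP _ _ h5.symm⟩
      rw [Nat.filter_Ico_card_eq_of_periodic _ _ _ hper, Nat.count_eq_card_filter_range]
      ring
  rw [← hk]
  refine card_le_card ?_
  refine filter_subset_filter _ ?_
  intro t ht
  have h1 := mem_range.1 ht
  have h3 := Nat.lt_div_mul_add (a := T) hN
  have h4 : (T / N + 1) * N = T / N * N + N := by ring
  exact mem_range.2 (by omega)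

/-- The number of good positions in the window. -/
noncomputable def X (q₀ w y J t : ℕ) : ℝ :=
  ∑ j ∈ range J, (if Gd q₀ w y (t + j) then (1 : ℝ) else 0)

theorem sum_X (q₀ w y J : ℕ) (hwy : w ≤ y) (hq : ∀ p, w < p → p.Prime → ¬ p ∣ q₀) :
    ∑ t ∈ range (Q w y), X q₀ w y J t = (J : ℝ) * ((ph w y : ℕ) : ℝ) := by
  unfold X
  rw [sum_comm]
  have h1 : ∀ j ∈ range J, ∑ t ∈ range (Q w y), (if Gd q₀ w y (t + j) then (1 : ℝ) else 0)
      = ((ph w y : ℕ) : ℝ) := by
    intro j _
    rw [← c_diag q₀ w y j hwy hq, c, card_filter]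
    push_cast
    refine sum_congr rfl ?_
    intro t _
    simp only [and_self]
  rw [sum_congr rfl h1, sum_const, card_range, nsmul_eq_mul]

theorem sum_X_sq (q₀ w y J : ℕ) :
    ∑ t ∈ range (Q w y), X q₀ w y J t ^ 2 = A q₀ w y J := by
  have h1 : ∀ t, X q₀ w y J t ^ 2 = ∑ i ∈ range J, ∑ j ∈ range J,
      (if (Gd q₀ w y (t + i) ∧ Gd q₀ w y (t + j)) then (1 : ℝ) else 0) := by
    intro t
    rw [X, sq, sum_mul_sum]
    refine sum_congr rfl (fun i _ => sum_congr rfl (fun j _ => ?_))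
    by_cases h1 : Gd q₀ w y (t + i) <;> by_cases h2 : Gd q₀ w y (t + j) <;> simp [h1, h2]
  rw [sum_congr rfl (fun t _ => h1 t), sum_comm, A]
  refine sum_congr rfl (fun i _ => ?_)
  rw [sum_comm]
  refine sum_congr rfl (fun j _ => ?_)
  rw [c, card_filter]
  push_cast
  rfl

/-- The mean. -/
noncomputable def E (w y J : ℕ) : ℝ := (J : ℝ) * ((ph w y : ℕ) : ℝ) / ((Q w y : ℕ) : ℝ)

open scoped Classical in
/-- Chebyshev's inequality. -/
theorem low_le (q₀ w y J : ℕ) (hw : 2 ≤ w) (hwy : w ≤ y) (hJ : 0 < J)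
    (hq : ∀ p, w < p → p.Prime → ¬ p ∣ q₀) :
    (((range (Q w y)).filter (fun t => X q₀ w y J t < E w y J / 2)).card : ℝ)
      ≤ 4 * (B w y J - 1) * ((Q w y : ℕ) : ℝ) := by
  have hQ0 : (0 : ℝ) < ((Q w y : ℕ) : ℝ) := by exact_mod_cast Q_pos w y
  have hp0 : (0 : ℝ) < ((ph w y : ℕ) : ℝ) := by exact_mod_cast ph_pos w y
  have hJ' : (0 : ℝ) < (J : ℝ) := by exact_mod_cast hJ
  have hE0 : 0 < E w y J := by unfold E; positivity
  have hEQ : E w y J * ((Q w y : ℕ) : ℝ) = (J : ℝ) * ((ph w y : ℕ) : ℝ) := by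
    unfold E; field_simp
  set e := E w y J with he
  have hm := main_bound q₀ w y J hw hwy hJ hq
  rw [← hEQ] at hm
  have hA : A q₀ w y J ≤ B w y J * e ^ 2 * ((Q w y : ℕ) : ℝ) := by
    have h1 : A q₀ w y J * ((Q w y : ℕ) : ℝ) ≤ (B w y J * e ^ 2 * ((Q w y : ℕ) : ℝ)) * ((Q w y : ℕ) : ℝ) := by
      have : B w y J * (e * ((Q w y : ℕ) : ℝ)) ^ 2
          = (B w y J * e ^ 2 * ((Q w y : ℕ) : ℝ)) * ((Q w y : ℕ) : ℝ) := by ring
      linarith
    exact le_of_mul_le_mul_right h1 hQ0
  have hvar : ∑ t ∈ range (Q w y), (X q₀ w y J t - e) ^ 2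
      = A q₀ w y J - e ^ 2 * ((Q w y : ℕ) : ℝ) := by
    have h1 : ∀ t, (X q₀ w y J t - e) ^ 2 = X q₀ w y J t ^ 2 - 2 * e * X q₀ w y J t + e ^ 2 := by
      intro t; ring
    rw [sum_congr rfl (fun t _ => h1 t), sum_add_distrib, sum_sub_distrib, ← mul_sum,
      sum_X q₀ w y J hwy hq, sum_X_sq, sum_const, card_range, nsmul_eq_mul, ← hEQ]
    ring
  have h2 : (((range (Q w y)).filter (fun t => X q₀ w y J t < e / 2)).card : ℝ) * (e ^ 2 / 4)
      ≤ ∑ t ∈ range (Q w y), (X q₀ w y J t - e) ^ 2 := by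
    rw [← nsmul_eq_mul, ← sum_const]
    refine (sum_le_sum ?_).trans (sum_le_sum_of_subset_of_nonneg (filter_subset _ _)
      (fun t _ _ => sq_nonneg _))
    intro t ht
    have h3 := (mem_filter.1 ht).2
    nlinarith
  have h4 : (((range (Q w y)).filter (fun t => X q₀ w y J t < e / 2)).card : ℝ) * (e ^ 2 / 4)
      ≤ (4 * (B w y J - 1) * ((Q w y : ℕ) : ℝ)) * (e ^ 2 / 4) := by
    have : (4 * (B w y J - 1) * ((Q w y : ℕ) : ℝ)) * (e ^ 2 / 4)
        = B w y J * e ^ 2 * ((Q w y : ℕ) : ℝ) - e ^ 2 * ((Q w y : ℕ) : ℝ) := by ring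
    linarith
  exact le_of_mul_le_mul_right h4 (by positivity)

theorem X_mod (q₀ w y J t s : ℕ) (h : t ≡ s [MOD Q w y]) : X q₀ w y J t = X q₀ w y J s := by
  unfold X
  refine sum_congr rfl ?_
  intro j _
  have h1 : Gd q₀ w y (t + j) ↔ Gd q₀ w y (s + j) :=
    ⟨Gd_mod q₀ w y _ _ (h.add_right j), Gd_mod q₀ w y _ _ (h.symm.add_right j)⟩
  by_cases h2 : Gd q₀ w y (t + j)
  · rw [if_pos h2, if_pos (h1.1 h2)]
  · rw [if_neg h2, if_neg (fun h3 => h2 (h1.2 h3))]

/-- The positions killed by a larger prime. -/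
theorem kill_le (q₀ w y J T p j : ℕ) (hwy : w ≤ y) (hq : ∀ p, w < p → p.Prime → ¬ p ∣ q₀)
    (hp : p.Prime) (hyp : y < p) :
    ((range T).filter (fun t => Gd q₀ w y (t + j) ∧ p ∣ q₀ * (t + j) + 1)).card
      ≤ (T / (Q w y * p) + 1) * ph w y := by
  have hcop : Nat.Coprime (Q w y) p := by
    refine Nat.Coprime.prod_left ?_
    intro r hr
    have h3 := mem_filter.1 hr
    have h4 := mem_Ioc.1 h3.1
    refine (Nat.coprime_primes h3.2 hp).2 ?_
    omega
  have hG : ∀ t s, t ≡ s [MOD Q w y] → Gd q₀ w y (t + j) → Gd q₀ w y (s + j) := by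
    intro t s hts h
    exact Gd_mod q₀ w y _ _ (hts.add_right j) h
  have hD : ∀ t s, t ≡ s [MOD p] → p ∣ q₀ * (t + j) + 1 → p ∣ q₀ * (s + j) + 1 := by
    intro t s hts h
    have h3 : q₀ * (t + j) + 1 ≡ q₀ * (s + j) + 1 [MOD p] :=
      ((hts.add_right j).mul_left q₀).add_right 1
    exact Nat.modEq_zero_iff_dvd.1 (h3.symm.trans (Nat.modEq_zero_iff_dvd.2 h))
  have h1 := count_periodic (fun t => Gd q₀ w y (t + j) ∧ p ∣ q₀ * (t + j) + 1) (Q w y * p) T
    (Nat.mul_pos (Q_pos w y) hp.pos) (by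
      intro t s hts h
      exact ⟨hG t s (hts.of_dvd (Nat.dvd_mul_right _ _)) h.1,
        hD t s (hts.of_dvd (Nat.dvd_mul_left _ _)) h.2⟩)
  have h2 := crt_count (Q w y) p (Q_pos w y).ne' hp.ne_zero hcop (fun t => Gd q₀ w y (t + j))
    (fun t => p ∣ q₀ * (t + j) + 1) hG hD
  have h3 : ((range (Q w y)).filter (fun t => Gd q₀ w y (t + j))).card = ph w y := by
    rw [← c_diag q₀ w y j hwy hq, c]
    congr 1
    refine filter_congr ?_
    intro t _
    simp only [and_self]
  have h4 : ((range p).filter (fun t => p ∣ q₀ * (t + j) + 1)).card ≤ 1 := by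
    rw [card_le_one]
    intro a ha b hb
    have ha' := mem_filter.1 ha
    have hb' := mem_filter.1 hb
    have hnd := hq p (by omega) hp
    rw [one_class q₀ p j hp hnd a (mem_range.1 ha'.1)] at ha'
    rw [one_class q₀ p j hp hnd b (mem_range.1 hb'.1)] at hb'
    rw [ha'.2, hb'.2]
  have h5 : ((range (Q w y * p)).filter
      (fun t => Gd q₀ w y (t + j) ∧ p ∣ q₀ * (t + j) + 1)).card ≤ ph w y := by
    rw [h2, h3]
    calc ph w y * ((range p).filter (fun t => p ∣ q₀ * (t + j) + 1)).card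
        ≤ ph w y * 1 := Nat.mul_le_mul_left _ h4
      _ = ph w y := mul_one _
  exact h1.trans (Nat.mul_le_mul_left _ h5)

/-- The number of killed positions. -/
noncomputable def Kl (q₀ w y z J t : ℕ) : ℝ :=
  ∑ j ∈ range J, ∑ p ∈ Sy y z, (if (Gd q₀ w y (t + j) ∧ p ∣ q₀ * (t + j) + 1) then (1 : ℝ) else 0)

open scoped Classical in
theorem killed_le (q₀ w y z J T : ℕ) (hwy : w ≤ y) (hJ : 0 < J)
    (hq : ∀ p, w < p → p.Prime → ¬ p ∣ q₀) (hy : 0 < y) :
    (((range T).filter (fun t => E w y J / 2 ≤ Kl q₀ w y z J t)).card : ℝ)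
      ≤ 2 * ((T : ℝ) * (((Sy y z).card : ℝ) / y) + ((Q w y : ℕ) : ℝ) * ((Sy y z).card : ℝ)) := by
  have hQ0 : (0 : ℝ) < ((Q w y : ℕ) : ℝ) := by exact_mod_cast Q_pos w y
  have hp0 : (0 : ℝ) < ((ph w y : ℕ) : ℝ) := by exact_mod_cast ph_pos w y
  have hJ' : (0 : ℝ) < (J : ℝ) := by exact_mod_cast hJ
  have hy' : (0 : ℝ) < (y : ℝ) := by exact_mod_cast hy
  have hE0 : 0 < E w y J := by unfold E; positivity
  have h1 : ∑ t ∈ range T, Kl q₀ w y z J t
      ≤ (J : ℝ) * (((Sy y z).card : ℝ) * (((T : ℝ) / (((Q w y : ℕ) : ℝ) * y) + 1) * ((ph w y : ℕ) : ℝ))) := by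
    unfold Kl
    rw [sum_comm]
    have h2 : ∀ j ∈ range J, ∑ t ∈ range T, ∑ p ∈ Sy y z,
        (if (Gd q₀ w y (t + j) ∧ p ∣ q₀ * (t + j) + 1) then (1 : ℝ) else 0)
        ≤ ((Sy y z).card : ℝ) * (((T : ℝ) / (((Q w y : ℕ) : ℝ) * y) + 1) * ((ph w y : ℕ) : ℝ)) := by
      intro j _
      rw [sum_comm]
      have h3 : ∀ p ∈ Sy y z, ∑ t ∈ range T,
          (if (Gd q₀ w y (t + j) ∧ p ∣ q₀ * (t + j) + 1) then (1 : ℝ) else 0)
          ≤ ((T : ℝ) / (((Q w y : ℕ) : ℝ) * y) + 1) * ((ph w y : ℕ) : ℝ) := by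
        intro p hp
        have h4 := mem_filter.1 hp
        have h5 := mem_Ioc.1 h4.1
        have h6 := kill_le q₀ w y J T p j hwy hq h4.2 h5.1
        have h7 : ∑ t ∈ range T,
            (if (Gd q₀ w y (t + j) ∧ p ∣ q₀ * (t + j) + 1) then (1 : ℝ) else 0)
            = (((range T).filter (fun t => Gd q₀ w y (t + j) ∧ p ∣ q₀ * (t + j) + 1)).card : ℝ) := by
          rw [card_filter]
          push_cast
          rfl
        rw [h7]
        have h8 : (((range T).filter (fun t => Gd q₀ w y (t + j) ∧ p ∣ q₀ * (t + j) + 1)).card : ℝ)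
            ≤ (((T / (Q w y * p) : ℕ) : ℝ) + 1) * ((ph w y : ℕ) : ℝ) := by exact_mod_cast h6
        refine h8.trans ?_
        refine mul_le_mul_of_nonneg_right ?_ hp0.le
        have h9 : ((T / (Q w y * p) : ℕ) : ℝ) ≤ (T : ℝ) / (((Q w y : ℕ) : ℝ) * y) := by
          refine Nat.cast_div_le.trans ?_
          have h10 : (y : ℝ) ≤ (p : ℝ) := by exact_mod_cast h5.1.le
          push_cast
          gcongr
        linarith
      have h11 := sum_le_sum h3
      rwa [sum_const, nsmul_eq_mul] at h11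
    have h12 := sum_le_sum h2
    rwa [sum_const, card_range, nsmul_eq_mul] at h12
  have hK0 : ∀ t, 0 ≤ Kl q₀ w y z J t := by
    intro t
    unfold Kl
    refine sum_nonneg (fun j _ => sum_nonneg (fun p _ => ?_))
    split_ifs <;> norm_num
  have h2 : (((range T).filter (fun t => E w y J / 2 ≤ Kl q₀ w y z J t)).card : ℝ) * (E w y J / 2)
      ≤ ∑ t ∈ range T, Kl q₀ w y z J t := by
    rw [← nsmul_eq_mul, ← sum_const]
    refine (sum_le_sum ?_).trans (sum_le_sum_of_subset_of_nonneg (filter_subset _ _)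
      (fun t _ _ => hK0 t))
    intro t ht
    exact (mem_filter.1 ht).2
  have h3 : (J : ℝ) * (((Sy y z).card : ℝ) * (((T : ℝ) / (((Q w y : ℕ) : ℝ) * y) + 1) * ((ph w y : ℕ) : ℝ)))
      = (2 * ((T : ℝ) * (((Sy y z).card : ℝ) / y) + ((Q w y : ℕ) : ℝ) * ((Sy y z).card : ℝ)))
        * (E w y J / 2) := by
    unfold E
    field_simp
  rw [h3] at h1
  exact le_of_mul_le_mul_right (h2.trans h1) (by positivity)

open scoped Classical in
/-- The finite statement with a larger limit. -/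
theorem finite_bound2 (w y J C x : ℕ) (hw : 2 ≤ w) (hwy : w ≤ y) (hJ : 0 < J) :
    ((range x).filter (fun n => F n ≤ n + C)).card
      ≤ w.factorial * (J + 1)
        + w.factorial * (((range (x / w.factorial + 1)).filter
            (fun t => X w.factorial w y J t < E w y J / 2)).card)
        + w.factorial * (((range (x / w.factorial + 1)).filter
            (fun t => E w y J / 2 ≤ Kl w.factorial w y (w.factorial * (J + 1) + C) J t)).card)
        + x.primeCounting * (w.factorial * (J + 1)) := by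
  set q₀ := w.factorial with hq₀
  set H := q₀ * (J + 1) with hH
  set z := H + C with hz
  have hq2 : 2 ≤ q₀ := by
    have : Nat.factorial 2 ≤ w.factorial := Nat.factorial_le hw
    simpa using this
  have hQ0 : (0 : ℝ) < ((Q w y : ℕ) : ℝ) := by exact_mod_cast Q_pos w y
  have hp0 : (0 : ℝ) < ((ph w y : ℕ) : ℝ) := by exact_mod_cast ph_pos w y
  have hJ' : (0 : ℝ) < (J : ℝ) := by exact_mod_cast hJ
  have hE0 : 0 < E w y J := by unfold E; positivity
  set S1 := range H with hS1
  set T := x / q₀ + 1 with hT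
  set S2 := (((range T).filter (fun t => X q₀ w y J t < E w y J / 2)) ×ˢ range q₀).image
    (fun u => q₀ * (u.1 + J) + u.2) with hS2
  set S4 := (((range T).filter (fun t => E w y J / 2 ≤ Kl q₀ w y z J t)) ×ˢ range q₀).image
    (fun u => q₀ * (u.1 + J) + u.2) with hS4
  set S3 := (((range (x + 1)).filter Nat.Prime) ×ˢ range H).image (fun u => u.1 + u.2) with hS3
  have hcover : (range x).filter (fun n => F n ≤ n + C) ⊆ ((S1 ∪ S2) ∪ S4) ∪ S3 := by
    intro n hn
    obtain ⟨hnx, hF⟩ := mem_filter.1 hn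
    have hnx := mem_range.1 hnx
    by_cases h1 : n < H
    · exact mem_union_left _ (mem_union_left _ (mem_union_left _ (mem_range.2 h1)))
    have hs : J + 1 ≤ n / q₀ := by
      rw [Nat.le_div_iff_mul_le (by omega), mul_comm]
      omega
    obtain ⟨t, ht⟩ : ∃ t, n / q₀ = t + J := ⟨n / q₀ - J, by omega⟩
    have hdm := Nat.div_add_mod n q₀
    have hmod : n % q₀ < q₀ := Nat.mod_lt _ (by omega)
    rw [ht] at hdm
    have htT : t < T := by
      have : n / q₀ ≤ x / q₀ := Nat.div_le_div_right hnx.le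
      omega
    by_cases hlow : X q₀ w y J t < E w y J / 2
    · exact mem_union_left _ (mem_union_left _ (mem_union_right _ (mem_image.2
        ⟨(t, n % q₀), mem_product.2 ⟨mem_filter.2 ⟨mem_range.2 htT, hlow⟩, mem_range.2 hmod⟩, hdm⟩)))
    by_cases hkill : E w y J / 2 ≤ Kl q₀ w y z J t
    · exact mem_union_left _ (mem_union_right _ (mem_image.2
        ⟨(t, n % q₀), mem_product.2 ⟨mem_filter.2 ⟨mem_range.2 htT, hkill⟩, mem_range.2 hmod⟩, hdm⟩))
    refine mem_union_right _ ?_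
    push Not at hlow hkill
    -- a position which is good and not killed
    obtain ⟨j, hj, hg, hnk⟩ : ∃ j, j < J ∧ Gd q₀ w y (t + j) ∧ ∀ p ∈ Sy y z, ¬ p ∣ q₀ * (t + j) + 1 := by
      by_contra hcon
      push Not at hcon
      have h2 : X q₀ w y J t ≤ Kl q₀ w y z J t := by
        unfold X Kl
        refine sum_le_sum ?_
        intro j hj
        by_cases hg : Gd q₀ w y (t + j)
        · obtain ⟨p, hp, hd⟩ := hcon j (mem_range.1 hj) hg
          rw [if_pos hg]
          have h3 : (if (Gd q₀ w y (t + j) ∧ p ∣ q₀ * (t + j) + 1) then (1 : ℝ) else 0) = 1 :=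
            if_pos ⟨hg, hd⟩
          have h4 := single_le_sum (f := fun r => (if (Gd q₀ w y (t + j) ∧ r ∣ q₀ * (t + j) + 1)
            then (1 : ℝ) else 0)) (s := Sy y z) (by
              intro i _
              split_ifs <;> norm_num) hp
          rw [h3] at h4
          exact h4
        · rw [if_neg hg]
          refine sum_nonneg ?_
          intro i _
          split_ifs <;> norm_num
      linarith
    set m := q₀ * (t + j) + 1 with hm
    have htj : 1 ≤ t + j := by omega
    have hm1 : 1 < m := by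
      have : 1 * 1 ≤ q₀ * (t + j) := Nat.mul_le_mul (by omega) htj
      omega
    have hmn : m < n := by
      have h2 : q₀ * (t + j) + q₀ ≤ q₀ * (t + J) := by
        have : q₀ * (t + j) + q₀ = q₀ * (t + j + 1) := by ring
        rw [this]
        exact Nat.mul_le_mul_left _ (by omega)
      omega
    have hnm : n < m + H := by
      have h2 : q₀ * (t + J) + q₀ ≤ q₀ * (t + j) + H := by
        rw [hH]
        have : q₀ * (t + J) + q₀ = q₀ * (t + J + 1) := by ring
        rw [this, ← Nat.mul_add]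
        exact Nat.mul_le_mul_left _ (by omega)
      omega
    have hmf : z < m.minFac := by
      have hp : m.minFac.Prime := Nat.minFac_prime (by omega)
      have hd : m.minFac ∣ m := Nat.minFac_dvd m
      have h2 : w < m.minFac := by
        by_contra hle
        have h3 : m.minFac ∣ q₀ := (Nat.Prime.dvd_factorial hp).2 (by omega)
        have h4 : m.minFac ∣ 1 := by
          have h5 : m.minFac ∣ q₀ * (t + j) := h3.mul_right _
          exact (Nat.dvd_add_right h5).1 hd
        exact hp.one_lt.ne' (Nat.dvd_one.1 h4)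
      have h3 : y < m.minFac := by
        by_contra hle
        exact hg m.minFac (mem_filter.2 ⟨mem_Ioc.2 ⟨h2, by omega⟩, hp⟩) hd
      by_contra hle
      exact hnk m.minFac (mem_filter.2 ⟨mem_Ioc.2 ⟨h3, by omega⟩, hp⟩) hd
    have hprime : m.Prime := by
      by_contra hnp
      have := le_F n m hmn hm1 hnp
      omega
    refine mem_image.2 ⟨(m, n - m), mem_product.2 ⟨mem_filter.2 ⟨mem_range.2 (by omega), hprime⟩,
      mem_range.2 (by simp only; omega)⟩, by simp only; omega⟩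
  have hc1 : S1.card = H := card_range H
  have hc2 : S2.card ≤ q₀ * (((range T).filter (fun t => X q₀ w y J t < E w y J / 2)).card) := by
    refine card_image_le.trans ?_
    rw [card_product, card_range]
    exact le_of_eq (by ring)
  have hc4 : S4.card ≤ q₀ * (((range T).filter (fun t => E w y J / 2 ≤ Kl q₀ w y z J t)).card) := by
    refine card_image_le.trans ?_
    rw [card_product, card_range]
    exact le_of_eq (by ring)
  have hc3 : S3.card ≤ x.primeCounting * H := by
    refine card_image_le.trans ?_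
    rw [card_product, card_range, Nat.primeCounting, Nat.primeCounting',
      Nat.count_eq_card_filter_range]
  have h := card_le_card hcover
  have h2 := card_union_le ((S1 ∪ S2) ∪ S4) S3
  have h3 := card_union_le (S1 ∪ S2) S4
  have h4 := card_union_le S1 S2
  omega

open scoped Classical in
/-- The real form. -/
theorem real_bound2 (w y J C x : ℕ) (hw : 2 ≤ w) (hwy : w ≤ y) (hJ : 0 < J) :
    (((range x).filter (fun n => F n ≤ n + C)).card : ℝ)
      ≤ (w.factorial : ℝ) * (J + 1)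
        + 4 * ((x : ℝ) + w.factorial + w.factorial * (4 : ℝ) ^ y)
          * (9 / 2 / √(w : ℝ) + 9 / 2 * (√(y : ℝ) / J))
        + 2 * (((x : ℝ) + w.factorial) *
            (((w.factorial * (J + 1) + C).primeCounting : ℝ) / y)
          + w.factorial * (4 : ℝ) ^ y * (((w.factorial : ℝ) * (J + 1) + C)))
        + (x.primeCounting : ℝ) * ((w.factorial : ℝ) * (J + 1)) := by
  have h := finite_bound2 w y J C x hw hwy hJ
  set q₀ := w.factorial with hq₀
  set z := q₀ * (J + 1) + C with hz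
  have hq0 : 0 < q₀ := Nat.factorial_pos w
  have hq0' : (0 : ℝ) < (q₀ : ℝ) := by exact_mod_cast hq0
  have hq : ∀ p, w < p → p.Prime → ¬ p ∣ q₀ := by
    intro p hp hpp hd
    have := (Nat.Prime.dvd_factorial hpp).1 hd
    omega
  have hJ' : (0 : ℝ) < (J : ℝ) := by exact_mod_cast hJ
  have hy0 : 0 < y := by omega
  have hy0' : (0 : ℝ) < (y : ℝ) := by exact_mod_cast hy0
  have hQ4 : ((Q w y : ℕ) : ℝ) ≤ (4 : ℝ) ^ y := by
    exact_mod_cast Q_le_four_pow w y
  have hQ0 : (0 : ℝ) < ((Q w y : ℕ) : ℝ) := by exact_mod_cast Q_pos w y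
  have hB : B w y J - 1 ≤ 9 / 2 / √(w : ℝ) + 9 / 2 * (√(y : ℝ) / J) := by
    unfold B
    have h1 : 0 ≤ 1 / √(y : ℝ) := by positivity
    have h6 : 9 / 2 * (1 / √(w : ℝ) - 1 / √(y : ℝ)) ≤ 9 / 2 / √(w : ℝ) := by
      have : 9 / 2 * (1 / √(w : ℝ)) = 9 / 2 / √(w : ℝ) := by ring
      linarith
    have h7 : 9 / 2 * √(y : ℝ) / J = 9 / 2 * (√(y : ℝ) / J) := by ring
    rw [h7]
    linarith
  set D := 9 / 2 / √(w : ℝ) + 9 / 2 * (√(y : ℝ) / J) with hD
  have hD0 : 0 ≤ D := by positivity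
  set T := x / q₀ + 1 with hT
  have hTr : (T : ℝ) ≤ (x : ℝ) / q₀ + 1 := by
    rw [hT]
    push_cast
    have : ((x / q₀ : ℕ) : ℝ) ≤ (x : ℝ) / q₀ := Nat.cast_div_le
    linarith
  have hqT : (q₀ : ℝ) * T ≤ x + q₀ := by
    have h1 := mul_le_mul_of_nonneg_left hTr hq0'.le
    have h2 : (q₀ : ℝ) * ((x : ℝ) / q₀ + 1) = x + q₀ := by field_simp
    linarith
  -- the first count
  have g1 : (q₀ : ℝ) * (((range T).filter (fun t => X q₀ w y J t < E w y J / 2)).card : ℝ)
      ≤ 4 * ((x : ℝ) + q₀ + q₀ * (4 : ℝ) ^ y) * D := by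
    have h1 := count_periodic (fun t => X q₀ w y J t < E w y J / 2) (Q w y) T (Q_pos w y) (by
      intro t s hts h2
      rwa [← X_mod q₀ w y J t s hts])
    have h2 := low_le q₀ w y J hw hwy hJ hq
    have h3 : (((range T).filter (fun t => X q₀ w y J t < E w y J / 2)).card : ℝ)
        ≤ (((T / Q w y : ℕ) : ℝ) + 1)
          * (((range (Q w y)).filter (fun t => X q₀ w y J t < E w y J / 2)).card : ℝ) := by
      exact_mod_cast h1
    have h4 : (((range (Q w y)).filter (fun t => X q₀ w y J t < E w y J / 2)).card : ℝ)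
        ≤ 4 * D * ((Q w y : ℕ) : ℝ) := by
      refine h2.trans ?_
      have := mul_le_mul_of_nonneg_left hB (show (0 : ℝ) ≤ 4 by norm_num)
      exact mul_le_mul_of_nonneg_right this hQ0.le
    have h5 : ((T / Q w y : ℕ) : ℝ) ≤ (T : ℝ) / ((Q w y : ℕ) : ℝ) := Nat.cast_div_le
    have h6 : (((range T).filter (fun t => X q₀ w y J t < E w y J / 2)).card : ℝ)
        ≤ ((T : ℝ) / ((Q w y : ℕ) : ℝ) + 1) * (4 * D * ((Q w y : ℕ) : ℝ)) := by
      refine h3.trans ?_
      exact mul_le_mul (by linarith) h4 (by positivity) (by positivity)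
    have h7 : ((T : ℝ) / ((Q w y : ℕ) : ℝ) + 1) * (4 * D * ((Q w y : ℕ) : ℝ))
        = 4 * D * ((T : ℝ) + ((Q w y : ℕ) : ℝ)) := by field_simp
    rw [h7] at h6
    have h8 := mul_le_mul_of_nonneg_left h6 hq0'.le
    have h9 : (q₀ : ℝ) * (4 * D * ((T : ℝ) + ((Q w y : ℕ) : ℝ)))
        = 4 * D * (q₀ * T + q₀ * ((Q w y : ℕ) : ℝ)) := by ring
    have h10 : 4 * D * (q₀ * T + q₀ * ((Q w y : ℕ) : ℝ))
        ≤ 4 * D * (((x : ℝ) + q₀) + q₀ * (4 : ℝ) ^ y) := by
      refine mul_le_mul_of_nonneg_left ?_ (by positivity)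
      have := mul_le_mul_of_nonneg_left hQ4 hq0'.le
      linarith
    have h11 : 4 * ((x : ℝ) + q₀ + q₀ * (4 : ℝ) ^ y) * D
        = 4 * D * (((x : ℝ) + q₀) + q₀ * (4 : ℝ) ^ y) := by ring
    linarith
  -- the second count
  have g2 : (q₀ : ℝ) * (((range T).filter (fun t => E w y J / 2 ≤ Kl q₀ w y z J t)).card : ℝ)
      ≤ 2 * (((x : ℝ) + q₀) * ((z.primeCounting : ℝ) / y)
          + q₀ * (4 : ℝ) ^ y * (((q₀ : ℝ) * (J + 1) + C))) := by
    have h1 := killed_le q₀ w y z J T hwy hJ hq hy0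
    have h2 : (Sy y z).card ≤ z.primeCounting := by
      rw [Nat.primeCounting, Nat.primeCounting', Nat.count_eq_card_filter_range]
      refine card_le_card ?_
      intro p hp
      have h3 := mem_filter.1 hp
      have h4 := mem_Ioc.1 h3.1
      exact mem_filter.2 ⟨mem_range.2 (by omega), h3.2⟩
    have h3 : (Sy y z).card ≤ z := by
      refine (card_filter_le _ _).trans ?_
      rw [Nat.card_Ioc]
      omega
    have h2' : ((Sy y z).card : ℝ) ≤ (z.primeCounting : ℝ) := by exact_mod_cast h2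
    have h3' : ((Sy y z).card : ℝ) ≤ (q₀ : ℝ) * (J + 1) + C := by
      have : ((Sy y z).card : ℝ) ≤ (z : ℝ) := by exact_mod_cast h3
      rw [hz] at this
      push_cast at this
      rw [hz]
      exact this
    have h4 := mul_le_mul_of_nonneg_left h1 hq0'.le
    have h5 : (q₀ : ℝ) * (2 * ((T : ℝ) * (((Sy y z).card : ℝ) / y)
        + ((Q w y : ℕ) : ℝ) * ((Sy y z).card : ℝ)))
        = 2 * ((q₀ * T) * (((Sy y z).card : ℝ) / y)
        + q₀ * ((Q w y : ℕ) : ℝ) * ((Sy y z).card : ℝ)) := by ring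
    rw [h5] at h4
    refine h4.trans ?_
    gcongr
  have h1 : (((range x).filter (fun n => F n ≤ n + C)).card : ℝ)
      ≤ (q₀ : ℝ) * (J + 1)
        + (q₀ : ℝ) * (((range T).filter (fun t => X q₀ w y J t < E w y J / 2)).card : ℝ)
        + (q₀ : ℝ) * (((range T).filter (fun t => E w y J / 2 ≤ Kl q₀ w y z J t)).card : ℝ)
        + (x.primeCounting : ℝ) * ((q₀ : ℝ) * (J + 1)) := by
    exact_mod_cast h
  linarith

end Pool.Agent.V7H30.EE
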